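import Pool.Agent.D0H73.OP.Stm

/-!
# OP, module CONC: one exact character close to the functional at `q` on a block

Author: helper52 (statement and paper proof: helper73, see `Pool/Agent/D0H73/OP/Stm.lean`).
-/

set_option autoImplicit false

namespace Pool.Agent.D0H52.OP

open Finset Pool.Agent.D0H73.OP Pool.Agent.V1192.UOD ComplexConjugate

variable {p : ℕ} [Fact p.Prime] {N : ℕ}

theorem chr_sub (u v w : V p N) : chr u (v - w) = chr u v * conj (chr u w) := by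
  unfold chr
  rw [← AddChar.map_neg_eq_conj, ← AddChar.map_add_eq_mul]
  congr 1
  rw [← sub_eq_add_neg, ← sum_sub_distrib]
  refine sum_congr rfl (fun j _ => ?_)
  rw [Pi.sub_apply, mul_sub]

/-- the second moment -/
theorem second {m : V p N → ℝ} {C τ : ℝ} {d : V p N → ℕ} (hC : 1 ≤ C) (hτ : 0 < τ)
    (hP : Pkg m τ d) (hm : ∀ v, 0 ≤ m v) (hs : ∀ v, m (-v) = m v) (hmC : ∑ v, m v ≤ C)
    {q : ℝ} (hq : |q| ≤ 1 / 2) (ρ : V p N → ℝ) (hρ : ∀ u, 0 ≤ ρ u) (hρ1 : ∑ u, ρ u = 1)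
    (hρq : ∀ v, ‖∑ u, (ρ u : ℂ) * chr u v - (q : ℂ) ^ d v‖ ≤ τ)
    (f : V p N → ℂ) (hf : ∀ v, ‖f v‖ ≤ m v) :
    ∑ u, ρ u * ‖∑ v, f v * (chr u v - (q : ℂ) ^ d v)‖ ^ 2 ≤ 5 * C ^ 2 * τ := by
  set A : V p N → ℂ := fun v => ∑ u, (ρ u : ℂ) * chr u v with hA
  have hqn : ‖(q : ℂ)‖ ≤ 1 / 2 := by
    rw [Complex.norm_real, Real.norm_eq_abs]
    exact hq
  have hqp : ∀ k : ℕ, ‖(q : ℂ) ^ k‖ ≤ (1 / 2) ^ k := fun k => by
    rw [norm_pow]
    exact pow_le_pow_left₀ (norm_nonneg _) hqn k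
  have hq1 : ∀ k : ℕ, ‖(q : ℂ) ^ k‖ ≤ 1 := fun k =>
    (hqp k).trans (pow_le_one₀ (by norm_num) (by norm_num))
  -- the mixed moments
  have hT : ∀ v w, ∑ u, (ρ u : ℂ) * ((chr u v - (q : ℂ) ^ d v) * conj (chr u w - (q : ℂ) ^ d w)) =
      (A (v - w) - (q : ℂ) ^ d (v - w)) - (q : ℂ) ^ d w * (A v - (q : ℂ) ^ d v) -
        (q : ℂ) ^ d v * conj (A w - (q : ℂ) ^ d w) +
        ((q : ℂ) ^ d (v - w) - (q : ℂ) ^ d v * (q : ℂ) ^ d w) := by
    intro v w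
    have hρc : ∑ u, (ρ u : ℂ) = 1 := by
      rw [← Complex.ofReal_sum, hρ1]
      simp
    have h1 : ∀ u, (ρ u : ℂ) * ((chr u v - (q : ℂ) ^ d v) * conj (chr u w - (q : ℂ) ^ d w)) =
        (ρ u : ℂ) * chr u (v - w) - (q : ℂ) ^ d w * ((ρ u : ℂ) * chr u v) -
          (q : ℂ) ^ d v * ((ρ u : ℂ) * conj (chr u w)) +
          (q : ℂ) ^ d v * (q : ℂ) ^ d w * (ρ u : ℂ) := by
      intro u
      rw [chr_sub, map_sub, map_pow, Complex.conj_ofReal]
      ring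
    rw [sum_congr rfl (fun u _ => h1 u), sum_add_distrib, sum_sub_distrib, sum_sub_distrib,
      ← mul_sum, ← mul_sum, ← mul_sum, hρc]
    have h2 : ∑ u, (ρ u : ℂ) * conj (chr u w) = conj (A w) := by
      simp only [hA]
      rw [map_sum]
      refine sum_congr rfl (fun u _ => ?_)
      rw [map_mul, Complex.conj_ofReal]
    rw [h2, map_sub, map_pow, Complex.conj_ofReal]
    simp only [hA]
    ring
  have hTb : ∀ v w, ‖∑ u, (ρ u : ℂ) * ((chr u v - (q : ℂ) ^ d v) *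
      conj (chr u w - (q : ℂ) ^ d w))‖ ≤ 3 * τ + 2 * Bd d v (-w) := by
    intro v w
    rw [hT]
    have h1 : ‖A (v - w) - (q : ℂ) ^ d (v - w)‖ ≤ τ := hρq _
    have h2 : ‖(q : ℂ) ^ d w * (A v - (q : ℂ) ^ d v)‖ ≤ τ := by
      rw [norm_mul]
      exact (mul_le_mul (hq1 _) (hρq v) (norm_nonneg _) zero_le_one).trans (by rw [one_mul])
    have h3 : ‖(q : ℂ) ^ d v * conj (A w - (q : ℂ) ^ d w)‖ ≤ τ := by
      rw [norm_mul, RCLike.norm_conj]
      exact (mul_le_mul (hq1 _) (hρq w) (norm_nonneg _) zero_le_one).trans (by rw [one_mul])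
    have h4 : ‖(q : ℂ) ^ d (v - w) - (q : ℂ) ^ d v * (q : ℂ) ^ d w‖ ≤ 2 * Bd d v (-w) := by
      unfold Bd
      rw [← sub_eq_add_neg, hP.neg w]
      split_ifs with h
      · rw [h, pow_add, sub_self, norm_zero, mul_zero]
      · have h5 : d (v - w) ≤ d v + d w := by
          have := hP.add v (-w)
          rwa [← sub_eq_add_neg, hP.neg w] at this
        refine (norm_sub_le _ _).trans ?_
        have h6 := hqp (d (v - w))
        have h7 : ‖(q : ℂ) ^ d v * (q : ℂ) ^ d w‖ ≤ (1 / 2) ^ d (v - w) := by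
          rw [← pow_add]
          exact (hqp _).trans (pow_le_pow_of_le_one (by norm_num) (by norm_num) h5)
        linarith
    calc ‖(A (v - w) - (q : ℂ) ^ d (v - w)) - (q : ℂ) ^ d w * (A v - (q : ℂ) ^ d v) -
        (q : ℂ) ^ d v * conj (A w - (q : ℂ) ^ d w) +
        ((q : ℂ) ^ d (v - w) - (q : ℂ) ^ d v * (q : ℂ) ^ d w)‖
        ≤ ‖(A (v - w) - (q : ℂ) ^ d (v - w)) - (q : ℂ) ^ d w * (A v - (q : ℂ) ^ d v) -
        (q : ℂ) ^ d v * conj (A w - (q : ℂ) ^ d w)‖ +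
        ‖(q : ℂ) ^ d (v - w) - (q : ℂ) ^ d v * (q : ℂ) ^ d w‖ := norm_add_le _ _
      _ ≤ (‖(A (v - w) - (q : ℂ) ^ d (v - w)) - (q : ℂ) ^ d w * (A v - (q : ℂ) ^ d v)‖ +
        ‖(q : ℂ) ^ d v * conj (A w - (q : ℂ) ^ d w)‖) +
        ‖(q : ℂ) ^ d (v - w) - (q : ℂ) ^ d v * (q : ℂ) ^ d w‖ := by
          gcongr
          exact norm_sub_le _ _
      _ ≤ ((‖A (v - w) - (q : ℂ) ^ d (v - w)‖ + ‖(q : ℂ) ^ d w * (A v - (q : ℂ) ^ d v)‖) +
        ‖(q : ℂ) ^ d v * conj (A w - (q : ℂ) ^ d w)‖) +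
        ‖(q : ℂ) ^ d (v - w) - (q : ℂ) ^ d v * (q : ℂ) ^ d w‖ := by
          gcongr
          exact norm_sub_le _ _
      _ ≤ 3 * τ + 2 * Bd d v (-w) := by linarith
  -- expansion
  have hexp : ((∑ u, ρ u * ‖∑ v, f v * (chr u v - (q : ℂ) ^ d v)‖ ^ 2 : ℝ) : ℂ) =
      ∑ v, ∑ w, f v * conj (f w) *
        ∑ u, (ρ u : ℂ) * ((chr u v - (q : ℂ) ^ d v) * conj (chr u w - (q : ℂ) ^ d w)) := by
    rw [Complex.ofReal_sum]
    have h1 : ∀ u, ((ρ u * ‖∑ v, f v * (chr u v - (q : ℂ) ^ d v)‖ ^ 2 : ℝ) : ℂ) =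
        ∑ v, ∑ w, f v * conj (f w) *
          ((ρ u : ℂ) * ((chr u v - (q : ℂ) ^ d v) * conj (chr u w - (q : ℂ) ^ d w))) := by
      intro u
      rw [Complex.ofReal_mul, Complex.ofReal_pow, ← Complex.mul_conj', map_sum, sum_mul_sum, mul_sum]
      refine sum_congr rfl (fun v _ => ?_)
      rw [mul_sum]
      refine sum_congr rfl (fun w _ => ?_)
      rw [map_mul]
      ring
    rw [sum_congr rfl (fun u _ => h1 u), sum_comm]
    refine sum_congr rfl (fun v _ => ?_)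
    rw [sum_comm]
    refine sum_congr rfl (fun w _ => ?_)
    rw [mul_sum]
  have hnn : 0 ≤ ∑ u, ρ u * ‖∑ v, f v * (chr u v - (q : ℂ) ^ d v)‖ ^ 2 :=
    sum_nonneg (fun u _ => mul_nonneg (hρ u) (by positivity))
  have hbound : ∑ u, ρ u * ‖∑ v, f v * (chr u v - (q : ℂ) ^ d v)‖ ^ 2 ≤
      ∑ v, ∑ w, m v * m w * (3 * τ + 2 * Bd d v (-w)) := by
    have h1 : ∑ u, ρ u * ‖∑ v, f v * (chr u v - (q : ℂ) ^ d v)‖ ^ 2 =
        ‖((∑ u, ρ u * ‖∑ v, f v * (chr u v - (q : ℂ) ^ d v)‖ ^ 2 : ℝ) : ℂ)‖ := by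
      rw [Complex.norm_real, Real.norm_eq_abs, abs_of_nonneg hnn]
    rw [h1, hexp]
    refine (norm_sum_le _ _).trans (sum_le_sum (fun v _ => ?_))
    refine (norm_sum_le _ _).trans (sum_le_sum (fun w _ => ?_))
    rw [norm_mul, norm_mul, RCLike.norm_conj]
    exact mul_le_mul (mul_le_mul (hf v) (hf w) (norm_nonneg _) (hm v)) (hTb v w) (norm_nonneg _)
      (mul_nonneg (hm v) (hm w))
  refine hbound.trans ?_
  have hm0 : 0 ≤ ∑ v, m v := sum_nonneg (fun v _ => hm v)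
  have e1 : ∑ v, ∑ w, m v * m w * (3 * τ + 2 * Bd d v (-w)) =
      3 * τ * (∑ v, m v) ^ 2 + 2 * ∑ v, ∑ w, m v * m w * Bd d v (-w) := by
    rw [sq, sum_mul_sum, mul_sum, mul_sum, ← sum_add_distrib]
    refine sum_congr rfl (fun v _ => ?_)
    rw [mul_sum, mul_sum, ← sum_add_distrib]
    refine sum_congr rfl (fun w _ => ?_)
    ring
  have e2 : ∑ v, ∑ w, m v * m w * Bd d v (-w) ≤ τ := by
    refine le_trans (le_of_eq ?_) hP.mass
    refine sum_congr rfl (fun v _ => ?_)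
    rw [← Equiv.sum_comp (Equiv.neg (V p N)) (fun w => m v * m w * Bd d v w)]
    refine sum_congr rfl (fun w _ => ?_)
    simp only [Equiv.neg_apply, hs]
  rw [e1]
  have h3 : (∑ v, m v) ^ 2 ≤ C ^ 2 := pow_le_pow_left₀ hm0 hmC 2
  have h4 : 3 * τ * (∑ v, m v) ^ 2 ≤ 3 * τ * C ^ 2 :=
    mul_le_mul_of_nonneg_left h3 (by positivity)
  have h5 : τ ≤ τ * C ^ 2 := le_mul_of_one_le_right hτ.le (one_le_pow₀ hC)
  linarith

theorem t_CONC : S_CONC := by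
  intro p _ N m C τ d hC hτ hτ1 hP hm hs hmC q hq ι _ f c hc hf
  have hp2 : (2 : ℝ) ≤ p := by exact_mod_cast (Fact.out : p.Prime).two_le
  have hq2 : |q| ≤ 1 / 2 := by
    refine hq.trans ?_
    apply one_div_le_one_div_of_le (by norm_num)
    linarith
  obtain ⟨ρ, hρ, hρ1, hρq⟩ := hP.riesz q hq
  set R : ℝ := 3 * C * Real.sqrt τ with hR
  have hsτ : 0 < Real.sqrt τ := Real.sqrt_pos.2 hτ
  have hRpos : 0 < R := by positivity
  set Y : ι → V p N → ℝ := fun i u => ‖∑ v, f i v * (chr u v - (q : ℂ) ^ d v)‖ with hY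
  have h1 : ∀ i, ∑ u, ρ u * Y i u ≤ R := by
    intro i
    have h2 := second hC hτ hP hm hs hmC hq2 ρ hρ hρ1 hρq (f i) (hf i)
    have h3 : ∀ u, ρ u * Y i u ≤ (ρ u * Y i u ^ 2) * (1 / (2 * R)) + ρ u * (R / 2) := by
      intro u
      have h4 : Y i u ≤ Y i u ^ 2 * (1 / (2 * R)) + R / 2 := by
        rw [mul_one_div, div_add_div _ _ (by positivity) (by norm_num), le_div_iff₀ (by positivity)]
        nlinarith [sq_nonneg (Y i u - R)]
      calc ρ u * Y i u ≤ ρ u * (Y i u ^ 2 * (1 / (2 * R)) + R / 2) :=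
            mul_le_mul_of_nonneg_left h4 (hρ u)
        _ = _ := by ring
    refine (sum_le_sum (fun u _ => h3 u)).trans ?_
    rw [sum_add_distrib, ← sum_mul, ← sum_mul, hρ1, one_mul]
    have h5 : (∑ u, ρ u * Y i u ^ 2) * (1 / (2 * R)) ≤ 5 * C ^ 2 * τ * (1 / (2 * R)) :=
      mul_le_mul_of_nonneg_right h2 (by positivity)
    have h6 : 5 * C ^ 2 * τ ≤ R ^ 2 := by
      rw [hR, mul_pow, mul_pow, Real.sq_sqrt hτ.le]
      nlinarith [mul_nonneg (sq_nonneg C) hτ.le]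
    have h7 : 5 * C ^ 2 * τ * (1 / (2 * R)) ≤ R / 2 := by
      rw [mul_one_div, div_le_div_iff₀ (by positivity) (by norm_num)]
      nlinarith
    linarith
  by_contra hcon
  push Not at hcon
  have h8 : ∑ u, ρ u * ∑ i, c i * Y i u ≤ (∑ i, c i) * R := by
    have e1 : ∑ u, ρ u * ∑ i, c i * Y i u = ∑ i, c i * ∑ u, ρ u * Y i u := by
      simp only [mul_sum]
      rw [sum_comm]
      refine sum_congr rfl (fun i _ => sum_congr rfl (fun u _ => ?_))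
      ring
    rw [e1, sum_mul]
    exact sum_le_sum (fun i _ => mul_le_mul_of_nonneg_left (h1 i) (hc i))
  obtain ⟨u₀, _, hu₀⟩ : ∃ u ∈ (univ : Finset (V p N)), 0 < ρ u := by
    by_contra hno
    push Not at hno
    have : ∑ u, ρ u ≤ 0 := sum_nonpos (fun u hu => hno u hu)
    linarith
  have h9 : ∑ u, ρ u * ((∑ i, c i) * R) < ∑ u, ρ u * ∑ i, c i * Y i u := by
    refine sum_lt_sum (fun u _ => mul_le_mul_of_nonneg_left (hcon u).le (hρ u))
      ⟨u₀, mem_univ _, mul_lt_mul_of_pos_left (hcon u₀) hu₀⟩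
  rw [← sum_mul, hρ1, one_mul] at h9
  linarith

end Pool.Agent.D0H52.OP
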